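import Pool.Agent.Q4.SPC.Stm

/-!
# SPC-SC1 (helper150 for helper4): relative reduction of unimodular vectors over a Dedekind domain
-/

set_option autoImplicit false
set_option linter.overlappingInstances false
set_option linter.unusedSectionVars false

open Matrix Q4.SPC

namespace Pool.Agent.Q150.SPC.SC1

section moves

variable {R : Type} [CommRing R] {n : ℕ}

/-- equivalence under the group `ES` -/
def Eqv (a : R) (v w : Fin n ⊕ Fin n → R) : Prop := ∃ x ∈ ES n R a, x.1 *ᵥ v = w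

theorem Eqv.refl (a : R) (v : Fin n ⊕ Fin n → R) : Eqv a v v :=
  ⟨1, Subgroup.one_mem _, by
    change (1 : Matrix (Fin n ⊕ Fin n) (Fin n ⊕ Fin n) R) *ᵥ v = v
    rw [Matrix.one_mulVec]⟩

theorem Eqv.trans {a : R} {u v w : Fin n ⊕ Fin n → R} (h : Eqv a u v) (h' : Eqv a v w) :
    Eqv a u w := by
  obtain ⟨x, hx, e⟩ := h
  obtain ⟨x', hx', e'⟩ := h'
  refine ⟨x' * x, Subgroup.mul_mem _ hx' hx, ?_⟩
  change (x'.1 * x.1) *ᵥ u = w
  rw [← Matrix.mulVec_mulVec, e, e']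

theorem inv_mulVec (h : Sp n R) (w : Fin n ⊕ Fin n → R) : (h⁻¹).1 *ᵥ (h.1 *ᵥ w) = w := by
  rw [Matrix.mulVec_mulVec]
  have h1 : (h⁻¹).1 * h.1 = 1 := congrArg Subtype.val (inv_mul_cancel h)
  rw [h1, Matrix.one_mulVec]

theorem Eqv.conj {a : R} {v w : Fin n ⊕ Fin n → R} (h : Sp n R)
    (e : Eqv a (h.1 *ᵥ v) (h.1 *ᵥ w)) : Eqv a v w := by
  obtain ⟨x, hx, e⟩ := e
  refine ⟨h⁻¹ * x * h, ?_, ?_⟩
  · have := ES_conj hx h⁻¹
    rwa [inv_inv] at this
  · change ((h⁻¹).1 * x.1 * h.1) *ᵥ v = w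
    rw [← Matrix.mulVec_mulVec, ← Matrix.mulVec_mulVec, e, inv_mulVec]

/-- unimodular vectors -/
def Uni (v : Fin n ⊕ Fin n → R) : Prop := ∃ c, c ⬝ᵥ v = 1

/-- congruence to `e_0` -/
def Cong (a : R) (i0 : Fin n) (v : Fin n ⊕ Fin n → R) : Prop :=
  ∀ i, a ∣ v i - (Pi.single (Sum.inl i0) 1 : Fin n ⊕ Fin n → R) i

theorem Eqv.uni {a : R} {v w : Fin n ⊕ Fin n → R} (h : Eqv a v w) (hv : Uni v) : Uni w := by
  obtain ⟨x, -, rfl⟩ := h
  obtain ⟨c, hc⟩ := hv
  refine ⟨c ᵥ* (x⁻¹).1, ?_⟩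
  rw [← Matrix.dotProduct_mulVec, inv_mulVec, hc]

/-- elements of `ES` are congruent to `1` -/
theorem ES_cong {a : R} {x : Sp n R} (hx : x ∈ ES n R a) (i j : Fin n ⊕ Fin n) :
    a ∣ x.1 i j - (1 : Matrix (Fin n ⊕ Fin n) (Fin n ⊕ Fin n) R) i j := by
  let f : R →+* R ⧸ Ideal.span {a} := Ideal.Quotient.mk _
  have hfa : f a = 0 := Ideal.Quotient.eq_zero_iff_mem.2 (Ideal.mem_span_singleton_self a)
  have key : ES n R a ≤ (spMap n f).ker := by
    rw [ES, Subgroup.closure_le]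
    rintro z ⟨h, y, hy, rfl⟩
    have h1 : spMap n f y = 1 := by
      refine Subtype.ext ?_
      change y.1.map f = 1
      have hS : ∀ S : Matrix (Fin n) (Fin n) R, (a • S).map f = 0 := by
        intro S
        ext p q
        simp [hfa]
      rcases hy with ⟨S, -, e⟩ | ⟨S, -, e⟩ | ⟨p, q, hpq, b, e⟩
      · rw [e, fromBlocks_map, hS]
        simp
      · rw [e, fromBlocks_map, hS]
        simp
      · rw [e, fromBlocks_map]
        have hT : ∀ (p q : Fin n) (b : R), f b = 0 → (transvection p q b).map f = 1 := by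
          intro p q b hb
          ext r t
          simp only [transvection, Matrix.map_apply, Matrix.add_apply, map_add, Matrix.single_apply]
          rw [Matrix.one_apply, Matrix.one_apply]
          split_ifs <;> simp [hb]
        rw [hT _ _ _ (by rw [map_mul, hfa, zero_mul]),
          hT _ _ _ (by rw [map_neg, map_mul, hfa, zero_mul, neg_zero])]
        simp
    change spMap n f (h * y * h⁻¹) = 1
    rw [map_mul, map_mul, h1, mul_one, ← map_mul, mul_inv_cancel, map_one]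
  have h1 : spMap n f x = 1 := key hx
  have h2 : x.1.map f = 1 := congrArg Subtype.val h1
  have h3 := congrFun (congrFun h2 i) j
  rw [Matrix.map_apply] at h3
  rw [← Ideal.mem_span_singleton, ← Ideal.Quotient.eq_zero_iff_mem]
  change f (x.1 i j - (1 : Matrix (Fin n ⊕ Fin n) (Fin n ⊕ Fin n) R) i j) = 0
  rw [map_sub, h3]
  rw [Matrix.one_apply, Matrix.one_apply]
  split_ifs <;> simp

theorem Eqv.cong {a : R} {i0 : Fin n} {v w : Fin n ⊕ Fin n → R} (h : Eqv a v w)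
    (hv : Cong a i0 v) : Cong a i0 w := by
  obtain ⟨x, hx, rfl⟩ := h
  intro i
  have h1 : (x.1 *ᵥ v) i = v i + ∑ j, (x.1 i j - (1 : Matrix (Fin n ⊕ Fin n) (Fin n ⊕ Fin n) R) i j) * v j := by
    have h2 : (x.1 *ᵥ v) i = ∑ j, x.1 i j * v j := rfl
    have h3 : v i = ∑ j, (1 : Matrix (Fin n ⊕ Fin n) (Fin n ⊕ Fin n) R) i j * v j := by
      have := congrFun (Matrix.one_mulVec v) i
      exact this.symm
    rw [h2]
    conv_rhs => rw [h3]
    rw [← Finset.sum_add_distrib]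
    refine Finset.sum_congr rfl fun j _ => ?_
    ring
  rw [h1, add_sub_right_comm]
  exact dvd_add (hv i) (Finset.dvd_sum fun j _ => Dvd.dvd.mul_right (ES_cong hx i j) _)

theorem single_mulVec' (i j : Fin n) (c : R) (y : Fin n → R) :
    Matrix.single i j c *ᵥ y = Pi.single i (c * y j) := by
  funext r
  rw [Matrix.mulVec, dotProduct]
  by_cases hr : r = i
  · subst hr
    rw [Pi.single_eq_same, Finset.sum_eq_single j]
    · simp
    · intro b _ hb
      simp [Matrix.single_apply_of_col_ne _ _ (Ne.symm hb)]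
    · simp
  · rw [Pi.single_eq_of_ne hr]
    refine Finset.sum_eq_zero fun s _ => ?_
    rw [Matrix.single_apply_of_row_ne (Ne.symm hr), zero_mul]

theorem eqv_up {a : R} (S : Matrix (Fin n) (Fin n) R) (hS : Sᵀ = S) (hd : ∀ i j, a ∣ S i j)
    (v : Fin n ⊕ Fin n → R) :
    Eqv a v (Sum.elim ((fun i => v (Sum.inl i)) + S *ᵥ fun i => v (Sum.inr i))
      fun i => v (Sum.inr i)) := by
  refine ⟨up S hS, (isEl_up S hS hd).mem_ES, ?_⟩
  have h1 : v = Sum.elim (fun i => v (Sum.inl i)) fun i => v (Sum.inr i) :=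
    (Sum.elim_comp_inl_inr v).symm
  conv_lhs => rw [h1]
  rw [up_mulVec]

theorem eqv_lo {a : R} (S : Matrix (Fin n) (Fin n) R) (hS : Sᵀ = S) (hd : ∀ i j, a ∣ S i j)
    (v : Fin n ⊕ Fin n → R) :
    Eqv a v (Sum.elim (fun i => v (Sum.inl i))
      ((fun i => v (Sum.inr i)) + S *ᵥ fun i => v (Sum.inl i))) := by
  refine ⟨lo S hS, (isEl_lo S hS hd).mem_ES, ?_⟩
  have h1 : v = Sum.elim (fun i => v (Sum.inl i)) fun i => v (Sum.inr i) :=
    (Sum.elim_comp_inl_inr v).symm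
  conv_lhs => rw [h1]
  rw [lo_mulVec]

theorem eqv_lvt {a : R} (i j : Fin n) (h : i ≠ j) (b : R) (hb : a ∣ b) (v : Fin n ⊕ Fin n → R) :
    ∃ v', Eqv a v v' ∧ v' (Sum.inl i) = v (Sum.inl i) + b * v (Sum.inl j) ∧
      (∀ k, k ≠ i → v' (Sum.inl k) = v (Sum.inl k)) ∧
      v' (Sum.inr j) = v (Sum.inr j) - b * v (Sum.inr i) ∧
      ∀ k, k ≠ j → v' (Sum.inr k) = v (Sum.inr k) := by
  refine ⟨_, ⟨lvt i j h b, (isEl_lvt i j h b hb).mem_ES, rfl⟩, ?_⟩
  have h1 : v = Sum.elim (fun i => v (Sum.inl i)) fun i => v (Sum.inr i) :=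
    (Sum.elim_comp_inl_inr v).symm
  have h2 : (lvt i j h b).1 *ᵥ v = Sum.elim ((fun i => v (Sum.inl i)) + Pi.single i (b * v (Sum.inl j)))
      ((fun i => v (Sum.inr i)) + Pi.single j (-(b * v (Sum.inr i)))) := by
    conv_lhs => rw [h1]
    rw [lvt_mulVec]
  rw [h2]
  refine ⟨?_, ?_, ?_, ?_⟩
  · simp
  · intro k hk
    simp [hk]
  · simp [sub_eq_add_neg]
  · intro k hk
    simp [hk]

theorem dvd_single {a b : R} (hb : a ∣ b) (i j p q : Fin n) : a ∣ (Matrix.single i j b) p q := by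
  rw [Matrix.single_apply]
  split_ifs
  · exact hb
  · exact dvd_zero a

theorem eqv_U1 {a : R} (i : Fin n) (b : R) (hb : a ∣ b) (v : Fin n ⊕ Fin n → R) :
    ∃ v', Eqv a v v' ∧ v' (Sum.inl i) = v (Sum.inl i) + b * v (Sum.inr i) ∧
      (∀ k, k ≠ i → v' (Sum.inl k) = v (Sum.inl k)) ∧ ∀ k, v' (Sum.inr k) = v (Sum.inr k) := by
  refine ⟨_, eqv_up (Matrix.single i i b) (Matrix.transpose_single i i b) (dvd_single hb i i) v, ?_⟩
  rw [single_mulVec']
  refine ⟨?_, ?_, ?_⟩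
  · simp
  · intro k hk
    simp [hk]
  · intro k
    simp

theorem eqv_L1 {a : R} (i : Fin n) (b : R) (hb : a ∣ b) (v : Fin n ⊕ Fin n → R) :
    ∃ v', Eqv a v v' ∧ v' (Sum.inr i) = v (Sum.inr i) + b * v (Sum.inl i) ∧
      (∀ k, k ≠ i → v' (Sum.inr k) = v (Sum.inr k)) ∧ ∀ k, v' (Sum.inl k) = v (Sum.inl k) := by
  refine ⟨_, eqv_lo (Matrix.single i i b) (Matrix.transpose_single i i b) (dvd_single hb i i) v, ?_⟩
  rw [single_mulVec']
  refine ⟨?_, ?_, ?_⟩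
  · simp
  · intro k hk
    simp [hk]
  · intro k
    simp

theorem symm2 (i j : Fin n) (b : R) :
    (Matrix.single i j b + Matrix.single j i b)ᵀ = Matrix.single i j b + Matrix.single j i b := by
  rw [Matrix.transpose_add, Matrix.transpose_single, Matrix.transpose_single, add_comm]

theorem eqv_U2 {a : R} (i j : Fin n) (h : i ≠ j) (b : R) (hb : a ∣ b) (v : Fin n ⊕ Fin n → R) :
    ∃ v', Eqv a v v' ∧ v' (Sum.inl i) = v (Sum.inl i) + b * v (Sum.inr j) ∧
      v' (Sum.inl j) = v (Sum.inl j) + b * v (Sum.inr i) ∧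
      (∀ k, k ≠ i → k ≠ j → v' (Sum.inl k) = v (Sum.inl k)) ∧
      ∀ k, v' (Sum.inr k) = v (Sum.inr k) := by
  refine ⟨_, eqv_up (Matrix.single i j b + Matrix.single j i b) (symm2 i j b)
    (fun p q => dvd_add (dvd_single hb i j p q) (dvd_single hb j i p q)) v, ?_⟩
  rw [Matrix.add_mulVec, single_mulVec', single_mulVec']
  refine ⟨?_, ?_, ?_, ?_⟩
  · simp [h]
  · simp [h.symm]
  · intro k hk hk'
    simp [hk, hk']
  · intro k
    simp

theorem eqv_L2 {a : R} (i j : Fin n) (h : i ≠ j) (b : R) (hb : a ∣ b) (v : Fin n ⊕ Fin n → R) :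
    ∃ v', Eqv a v v' ∧ v' (Sum.inr i) = v (Sum.inr i) + b * v (Sum.inl j) ∧
      v' (Sum.inr j) = v (Sum.inr j) + b * v (Sum.inl i) ∧
      (∀ k, k ≠ i → k ≠ j → v' (Sum.inr k) = v (Sum.inr k)) ∧
      ∀ k, v' (Sum.inl k) = v (Sum.inl k) := by
  refine ⟨_, eqv_lo (Matrix.single i j b + Matrix.single j i b) (symm2 i j b)
    (fun p q => dvd_add (dvd_single hb i j p q) (dvd_single hb j i p q)) v, ?_⟩
  rw [Matrix.add_mulVec, single_mulVec', single_mulVec']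
  refine ⟨?_, ?_, ?_, ?_⟩
  · simp [h]
  · simp [h.symm]
  · intro k hk hk'
    simp [hk, hk']
  · intro k
    simp

end moves

section ded

variable {R : Type} [CommRing R] {n : ℕ}

theorem cong_dvd0 {a : R} {i0 : Fin n} {v : Fin n ⊕ Fin n → R} (hv : Cong a i0 v) :
    a ∣ v (Sum.inl i0) - 1 := by
  have := hv (Sum.inl i0)
  rwa [Pi.single_eq_same] at this

theorem cong_dvdl {a : R} {i0 : Fin n} {v : Fin n ⊕ Fin n → R} (hv : Cong a i0 v) {i : Fin n}
    (hi : i ≠ i0) : a ∣ v (Sum.inl i) := by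
  have := hv (Sum.inl i)
  rwa [Pi.single_eq_of_ne (fun h => hi (Sum.inl_injective h)), sub_zero] at this

theorem cong_dvdr {a : R} {i0 : Fin n} {v : Fin n ⊕ Fin n → R} (hv : Cong a i0 v) (i : Fin n) :
    a ∣ v (Sum.inr i) := by
  have := hv (Sum.inr i)
  rwa [Pi.single_eq_of_ne (fun h => by cases h), sub_zero] at this

theorem notMem_of_cong {a u : R} (h : a ∣ u - 1) {p : Ideal R} (hp : p.IsMaximal) (hu : u ∈ p) :
    a ∉ p := by
  intro ha
  obtain ⟨t, ht⟩ := h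
  have h1 : (1 : R) ∈ p := by
    have : (1 : R) = u - a * t := by rw [← ht]; ring
    rw [this]
    exact p.sub_mem hu (p.mul_mem_right t ha)
  exact hp.ne_top ((Ideal.eq_top_iff_one p).2 h1)

theorem ne_zero_of_cong {a u : R} (ha : ¬ IsUnit a) (h : a ∣ u - 1) : u ≠ 0 := by
  rintro rfl
  apply ha
  rw [zero_sub] at h
  exact isUnit_of_dvd_one ((dvd_neg (a := a) (b := 1)).1 h)

variable [IsDomain R] [IsDedekindDomain R]

/-- one step of the reduction -/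
theorem step (hscr : SCR) (I : Ideal R) (hI : I ≠ ⊥) (a u w : R) : ∃ s : R, ∀ p : Ideal R,
    p.IsMaximal → I ≤ p → u + a * s * w ∈ p → u ∈ p ∧ (a ∈ p ∨ w ∈ p) := by
  obtain ⟨s, hs⟩ := hscr R I hI (fun p => u ∉ p)
  refine ⟨s, fun p hp hIp h => ?_⟩
  have hpp : p.IsPrime := hp.isPrime
  by_cases hu : u ∈ p
  · refine ⟨hu, ?_⟩
    have h1 := (hs p hp hIp).2 (fun h' => h' hu)
    have h2 : a * s * w ∈ p := (p.add_mem_iff_right hu).1 h
    have h3 : a * w ∈ p := by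
      have : a * w = a * s * w - (s - 1) * (a * w) := by ring
      rw [this]
      exact p.sub_mem h2 (p.mul_mem_right _ h1)
    exact hpp.mem_or_mem h3
  · have h1 := (hs p hp hIp).1 hu
    have h2 : a * s * w ∈ p := p.mul_mem_right _ (p.mul_mem_left _ h1)
    exact absurd ((p.add_mem_iff_left h2).1 h) hu

theorem step0 (hscr : SCR) {a : R} (ha : ¬ IsUnit a) (u0 : R) (hu : a ∣ u0 - 1) (u w : R) :
    ∃ s : R, ∀ p : Ideal R, p.IsMaximal → u0 ∈ p → u + a * s * w ∈ p → u ∈ p ∧ w ∈ p := by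
  obtain ⟨s, hs⟩ := step hscr (Ideal.span {u0})
    (by rw [Ne, Ideal.span_singleton_eq_bot]; exact ne_zero_of_cong ha hu) a u w
  refine ⟨s, fun p hp hup h => ?_⟩
  obtain ⟨h1, h2⟩ := hs p hp ((Ideal.span_singleton_le_iff_mem p).2 hup) h
  exact ⟨h1, h2.resolve_left (notMem_of_cong hu hp hup)⟩

/-- all coordinates but `y_0` generate the ring -/
def DD (i0 : Fin n) (v : Fin n ⊕ Fin n → R) : Prop :=
  ∀ p : Ideal R, p.IsMaximal → v (Sum.inl i0) ∈ p →
    (∀ i, i ≠ i0 → v (Sum.inl i) ∈ p ∧ v (Sum.inr i) ∈ p) → False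

/-- (b) -/
theorem partB (hscr : SCR) {a : R} {i0 : Fin n} {v : Fin n ⊕ Fin n → R}
    (hc : Cong a i0 v) (hu : Uni v) (hne : ∃ i, i ≠ i0 ∧ (v (Sum.inl i) ≠ 0 ∨ v (Sum.inr i) ≠ 0)) :
    ∃ v', Eqv a v v' ∧ DD i0 v' := by
  obtain ⟨I, hI⟩ : ∃ I : Ideal R, I = Ideal.span {r | ∃ i, i ≠ i0 ∧ (r = v (Sum.inl i) ∨
    r = v (Sum.inr i))} := ⟨_, rfl⟩
  have hI0 : I ≠ ⊥ := by
    obtain ⟨i, hi, h⟩ := hne
    rw [hI, Ne, Ideal.span_eq_bot]
    intro h'
    rcases h with h | h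
    · exact h (h' _ ⟨i, hi, Or.inl rfl⟩)
    · exact h (h' _ ⟨i, hi, Or.inr rfl⟩)
  obtain ⟨s, hs⟩ := step hscr I hI0 a (v (Sum.inl i0)) (v (Sum.inr i0))
  obtain ⟨v', h1, h2, h3, h4⟩ := eqv_U1 i0 (a * s) (Dvd.intro s rfl) v
  refine ⟨v', h1, fun p hp h5 h6 => ?_⟩
  rw [h2] at h5
  have hIp : I ≤ p := by
    rw [hI, Ideal.span_le]
    rintro r ⟨i, hi, rfl | rfl⟩
    · rw [← h3 i hi]; exact (h6 i hi).1
    · rw [← h4 i]; exact (h6 i hi).2
  obtain ⟨h7, h8⟩ := hs p hp hIp h5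
  have h9 : v (Sum.inr i0) ∈ p := h8.resolve_left (notMem_of_cong (cong_dvd0 hc) hp h7)
  obtain ⟨c, hc⟩ := hu
  apply hp.ne_top
  rw [Ideal.eq_top_iff_one, ← hc]
  refine p.sum_mem fun k _ => p.mul_mem_left _ ?_
  rcases k with i | i
  · by_cases hi : i = i0
    · rw [hi]; exact h7
    · rw [← h3 i hi]; exact (h6 i hi).1
  · by_cases hi : i = i0
    · rw [hi]; exact h9
    · rw [← h4 i]; exact (h6 i hi).2

/-- (c) -/
theorem partC (hscr : SCR) {a : R} (ha : ¬ IsUnit a) {i0 i1 : Fin n} (h01 : i1 ≠ i0)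
    (T : Finset (Fin n)) : i0 ∉ T → i1 ∉ T → ∀ v : Fin n ⊕ Fin n → R, Cong a i0 v → DD i0 v →
    ∃ v', Eqv a v v' ∧ DD i0 v' ∧ ∀ p : Ideal R, p.IsMaximal → v' (Sum.inl i0) ∈ p →
      v' (Sum.inl i1) ∈ p → v' (Sum.inr i1) ∈ p ∧
        ∀ j ∈ T, v' (Sum.inl j) ∈ p ∧ v' (Sum.inr j) ∈ p := by
  induction T using Finset.induction_on with
  | empty =>
    intro _ _ v hc hD
    obtain ⟨s, hs⟩ := step0 hscr ha (v (Sum.inl i0)) (cong_dvd0 hc) (v (Sum.inl i1)) (v (Sum.inr i1))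
    obtain ⟨v', h1, h2, h3, h4⟩ := eqv_U1 i1 (a * s) (Dvd.intro s rfl) v
    refine ⟨v', h1, ?_, ?_⟩
    · intro p hp h5 h6
      refine hD p hp (by rw [← h3 i0 h01.symm]; exact h5) fun i hi => ?_
      refine ⟨?_, by rw [← h4 i]; exact (h6 i hi).2⟩
      by_cases hi1 : i = i1
      · have h7 := (h6 i hi).1
        rw [hi1, h2] at h7
        rw [hi1]
        exact (hs p hp (by rw [← h3 i0 h01.symm]; exact h5) h7).1
      · rw [← h3 i hi1]; exact (h6 i hi).1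
    · intro p hp h5 h6
      rw [h2] at h6
      rw [h3 i0 h01.symm] at h5
      refine ⟨?_, by simp⟩
      rw [h4]
      exact (hs p hp h5 h6).2
  | insert j T hjT ih =>
    intro hi0 hi1 v hc hD
    have hj0 : j ≠ i0 := fun h => hi0 (by rw [h]; exact Finset.mem_insert_self _ _)
    have hj1 : j ≠ i1 := fun h => hi1 (by rw [h]; exact Finset.mem_insert_self _ _)
    obtain ⟨w, hw1, hw2, hw3⟩ := ih (fun h => hi0 (Finset.mem_insert_of_mem h))
      (fun h => hi1 (Finset.mem_insert_of_mem h)) v hc hD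
    have hcw := hw1.cong hc
    -- `x_j`
    obtain ⟨s, hs⟩ := step0 hscr ha (w (Sum.inl i0)) (cong_dvd0 hcw) (w (Sum.inl i1)) (w (Sum.inl j))
    obtain ⟨w', h1, h2, h3, h4, h5⟩ := eqv_lvt i1 j hj1.symm (a * s) (Dvd.intro s rfl) w
    have hcw' := h1.cong hcw
    -- `y_j`
    obtain ⟨s', hs'⟩ := step0 hscr ha (w' (Sum.inl i0)) (cong_dvd0 hcw') (w' (Sum.inl i1))
      (w' (Sum.inr j))
    obtain ⟨w'', g1, g2, g3, g4, g5⟩ := eqv_U2 i1 j hj1.symm (a * s') (Dvd.intro s' rfl) w'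
    have key : ∀ p : Ideal R, p.IsMaximal → w'' (Sum.inl i0) ∈ p → w'' (Sum.inl i1) ∈ p →
        w (Sum.inl i0) ∈ p ∧ w (Sum.inl i1) ∈ p ∧ w (Sum.inr i1) ∈ p ∧ w (Sum.inl j) ∈ p ∧
        w (Sum.inr j) ∈ p ∧ (∀ k ∈ T, w (Sum.inl k) ∈ p ∧ w (Sum.inr k) ∈ p) ∧
        w'' (Sum.inl j) ∈ p ∧ w'' (Sum.inr j) ∈ p := by
      intro p hp e1 e2
      rw [g4 i0 h01.symm hj0.symm] at e1
      rw [g2] at e2
      obtain ⟨e3, e4⟩ := hs' p hp e1 e2
      rw [h3 i0 h01.symm] at e1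
      rw [h2] at e3
      obtain ⟨e5, e6⟩ := hs p hp e1 e3
      obtain ⟨e7, e8⟩ := hw3 p hp e1 e5
      have e9 : w (Sum.inr j) ∈ p := by
        have : w (Sum.inr j) = w' (Sum.inr j) + a * s * w (Sum.inr i1) := by rw [h4]; ring
        rw [this]
        exact p.add_mem e4 (p.mul_mem_left _ e7)
      refine ⟨e1, e5, e7, e6, e9, e8, ?_, ?_⟩
      · rw [g3, h3 j hj1, h5 i1 hj1.symm]
        exact p.add_mem e6 (p.mul_mem_left _ e7)
      · rw [g5]
        exact e4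
    refine ⟨w'', (hw1.trans h1).trans g1, ?_, ?_⟩
    · intro p hp e1 e2
      obtain ⟨f1, f2, f3, f4, f5, -, -, -⟩ := key p hp e1 (e2 i1 h01).1
      refine hw2 p hp f1 fun i hi => ?_
      by_cases hii1 : i = i1
      · rw [hii1]; exact ⟨f2, f3⟩
      · by_cases hij : i = j
        · rw [hij]; exact ⟨f4, f5⟩
        · have := e2 i hi
          rw [g4 i hii1 hij, h3 i hii1, g5, h5 i hij] at this
          exact this
    · intro p hp e1 e2
      obtain ⟨f1, f2, f3, f4, f5, f6, f7, f8⟩ := key p hp e1 e2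
      refine ⟨by rw [g5, h5 i1 hj1.symm]; exact f3, fun k hk => ?_⟩
      rcases Finset.mem_insert.1 hk with rfl | hk
      · exact ⟨f7, f8⟩
      · have hkj : k ≠ j := fun h => hjT (by rw [← h]; exact hk)
        have hk1 : k ≠ i1 := fun h => hi1 (by rw [← h]; exact Finset.mem_insert_of_mem hk)
        rw [g4 k hk1 hkj, h3 k hk1, g5, h5 k hkj]
        exact f6 k hk

/-- (d) -/
theorem partD {a : R} {i0 i1 : Fin n} {v : Fin n ⊕ Fin n → R} (hc : Cong a i0 v)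
    (hp : ∀ p : Ideal R, p.IsMaximal → v (Sum.inl i0) ∈ p → v (Sum.inl i1) ∈ p → False) :
    ∃ v', Eqv a v v' ∧ (∀ i, v' (Sum.inl i) = v (Sum.inl i)) ∧
      v' (Sum.inr i0) = 1 - v (Sum.inl i0) ∧ ∀ i, i ≠ i0 → v' (Sum.inr i) = 0 := by
  -- `x_0` and `x_1` generate
  have hgen : Ideal.span {v (Sum.inl i0), v (Sum.inl i1)} = ⊤ := by
    by_contra hne
    obtain ⟨p, hpm, hle⟩ := Ideal.exists_le_maximal _ hne
    exact hp p hpm (hle (Ideal.subset_span (by simp))) (hle (Ideal.subset_span (by simp)))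
  rw [Ideal.eq_top_iff_one, Ideal.mem_span_pair] at hgen
  obtain ⟨c0, c1, hcc⟩ := hgen
  let x : Fin n → R := fun i => v (Sum.inl i)
  let y : Fin n → R := fun i => v (Sum.inr i)
  let c : Fin n → R := Pi.single i0 c0 + Pi.single i1 c1
  have hcx : c ⬝ᵥ x = 1 := by
    change (Pi.single i0 c0 + Pi.single i1 c1) ⬝ᵥ x = 1
    rw [add_dotProduct, single_dotProduct, single_dotProduct]
    exact hcc
  let z : Fin n → R := Pi.single i0 (1 - x i0) - y
  have hz : ∀ i, a ∣ z i := by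
    intro i
    change a ∣ (Pi.single i0 (1 - x i0) : Fin n → R) i - y i
    refine dvd_sub ?_ (cong_dvdr hc i)
    by_cases hi : i = i0
    · rw [hi, Pi.single_eq_same, ← neg_sub, dvd_neg]
      exact cong_dvd0 hc
    · rw [Pi.single_eq_of_ne hi]
      exact dvd_zero a
  let S : Matrix (Fin n) (Fin n) R := vecMulVec z c + vecMulVec c z - (x ⬝ᵥ z) • vecMulVec c c
  have hS : Sᵀ = S := by
    change (vecMulVec z c + vecMulVec c z - (x ⬝ᵥ z) • vecMulVec c c)ᵀ = _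
    rw [transpose_sub, transpose_add, transpose_smul, transpose_vecMulVec, transpose_vecMulVec,
      transpose_vecMulVec, add_comm]
  have hd : ∀ i j, a ∣ S i j := by
    intro i j
    change a ∣ z i * c j + c i * z j - (x ⬝ᵥ z) * (c i * c j)
    refine dvd_sub (dvd_add (Dvd.dvd.mul_right (hz i) _) (Dvd.dvd.mul_left (hz j) _))
      (Dvd.dvd.mul_right ?_ _)
    exact Finset.dvd_sum fun k _ => Dvd.dvd.mul_left (hz k) _
  have hSx : S *ᵥ x = z := by
    change (vecMulVec z c + vecMulVec c z - (x ⬝ᵥ z) • vecMulVec c c) *ᵥ x = z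
    funext i
    have e : ∀ u w : Fin n → R, (vecMulVec u w *ᵥ x) i = u i * (w ⬝ᵥ x) := by
      intro u w
      rw [Matrix.mulVec, dotProduct, dotProduct, Finset.mul_sum]
      refine Finset.sum_congr rfl fun k _ => ?_
      rw [vecMulVec_apply]
      ring
    rw [sub_mulVec, add_mulVec, smul_mulVec, Pi.sub_apply, Pi.add_apply, Pi.smul_apply, e, e, e,
      hcx, dotProduct_comm z x, smul_eq_mul]
    ring
  refine ⟨_, eqv_lo S hS hd v, ?_, ?_, ?_⟩
  · intro i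
    rfl
  · change y i0 + (S *ᵥ x) i0 = 1 - x i0
    rw [hSx]
    change y i0 + ((Pi.single i0 (1 - x i0) : Fin n → R) i0 - y i0) = 1 - x i0
    rw [Pi.single_eq_same]
    ring
  · intro i hi
    change y i + (S *ᵥ x) i = 0
    rw [hSx]
    change y i + ((Pi.single i0 (1 - x i0) : Fin n → R) i - y i) = 0
    rw [Pi.single_eq_of_ne hi]
    ring

/-- (e) -/
theorem partE {a : R} {i0 : Fin n} {v : Fin n ⊕ Fin n → R} (hc : Cong a i0 v)
    (h0 : v (Sum.inr i0) = 1 - v (Sum.inl i0)) (h1 : ∀ i, i ≠ i0 → v (Sum.inr i) = 0) :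
    Eqv a v (Pi.single (Sum.inl i0) 1) := by
  have hsy : (Matrix.single i0 i0 (1 : R))ᵀ = Matrix.single i0 i0 1 := Matrix.transpose_single _ _ _
  refine Eqv.conj (up (Matrix.single i0 i0 (1 : R)) hsy) ?_
  have hv : v = Sum.elim (fun i => v (Sum.inl i)) fun i => v (Sum.inr i) :=
    (Sum.elim_comp_inl_inr v).symm
  have he : (Pi.single (Sum.inl i0) 1 : Fin n ⊕ Fin n → R) = Sum.elim (Pi.single i0 1) 0 := by
    funext k
    rcases k with k | k
    · by_cases hk : k = i0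
      · subst hk; simp
      · rw [Pi.single_eq_of_ne (fun h => hk (Sum.inl_injective h)), Sum.elim_inl,
          Pi.single_eq_of_ne hk]
    · rw [Pi.single_eq_of_ne (fun h => by cases h)]
      rfl
  have hR : (up (Matrix.single i0 i0 (1 : R)) hsy).1 *ᵥ (Pi.single (Sum.inl i0) 1) =
      (Pi.single (Sum.inl i0) 1 : Fin n ⊕ Fin n → R) := by
    rw [he, up_mulVec, Matrix.mulVec_zero, add_zero]
  rw [hR]
  obtain ⟨w, hw⟩ : ∃ w, w = (up (Matrix.single i0 i0 (1 : R)) hsy).1 *ᵥ v := ⟨_, rfl⟩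
  rw [← hw]
  have hw' : w = Sum.elim ((fun i => v (Sum.inl i)) + Pi.single i0 (v (Sum.inr i0)))
      fun i => v (Sum.inr i) := by
    rw [hw]
    conv_lhs => rw [hv]
    rw [up_mulVec, single_mulVec', one_mul]
  have w0 : w (Sum.inl i0) = 1 := by
    rw [hw']
    simp [h0]
  have w1 : ∀ i, i ≠ i0 → w (Sum.inl i) = v (Sum.inl i) := by
    intro i hi
    rw [hw']
    simp [hi]
  have w2 : ∀ i, w (Sum.inr i) = v (Sum.inr i) := by
    intro i
    rw [hw']
    rfl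
  have key : ∀ T : Finset (Fin n), i0 ∉ T → ∃ w', Eqv a w w' ∧ w' (Sum.inl i0) = 1 ∧
      (∀ i ∈ T, w' (Sum.inl i) = 0) ∧ (∀ i, i ∉ T → w' (Sum.inl i) = w (Sum.inl i)) ∧
      ∀ i, w' (Sum.inr i) = w (Sum.inr i) := by
    intro T
    induction T using Finset.induction_on with
    | empty =>
      intro _
      exact ⟨w, Eqv.refl a w, w0, by simp, fun _ _ => rfl, fun _ => rfl⟩
    | insert j T hjT ih =>
      intro hT
      have hj0 : j ≠ i0 := fun h => hT (by rw [h]; exact Finset.mem_insert_self _ _)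
      obtain ⟨w', e1, e2, e3, e4, e5⟩ := ih (fun h => hT (Finset.mem_insert_of_mem h))
      obtain ⟨w'', f1, f2, f3, f4, f5⟩ := eqv_lvt (a := a) j i0 hj0 (-(w' (Sum.inl j))) (by
        rw [dvd_neg, e4 j hjT, w1 j hj0]
        exact cong_dvdl hc hj0) w'
      refine ⟨w'', e1.trans f1, ?_, ?_, ?_, ?_⟩
      · rw [f3 i0 hj0.symm, e2]
      · intro i hi
        rcases Finset.mem_insert.1 hi with rfl | hi
        · rw [f2, e2]; ring
        · have hij : i ≠ j := fun h => hjT (by rw [← h]; exact hi)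
          rw [f3 i hij, e3 i hi]
      · intro i hi
        have hij : i ≠ j := fun h => hi (by rw [h]; exact Finset.mem_insert_self _ _)
        rw [f3 i hij, e4 i fun h => hi (Finset.mem_insert_of_mem h)]
      · intro i
        by_cases hi : i = i0
        · rw [hi, f4, e5 j, w2 j, h1 j hj0, mul_zero, sub_zero, e5]
        · rw [f5 i hi, e5]
  obtain ⟨w', e1, e2, e3, e4, e5⟩ := key (Finset.univ.erase i0) (Finset.notMem_erase i0 _)
  obtain ⟨w'', f1, f2, f3, f4⟩ := eqv_L1 (a := a) i0 (-(w' (Sum.inr i0))) (by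
    rw [dvd_neg, e5, w2]
    exact cong_dvdr hc i0) w'
  have hfin : w'' = Pi.single (Sum.inl i0) 1 := by
    rw [he]
    funext k
    rcases k with k | k
    · rw [f4, Sum.elim_inl]
      by_cases hk : k = i0
      · rw [hk, e2, Pi.single_eq_same]
      · rw [e3 k (Finset.mem_erase.2 ⟨hk, Finset.mem_univ _⟩), Pi.single_eq_of_ne hk]
    · rw [Sum.elim_inr, Pi.zero_apply]
      by_cases hk : k = i0
      · rw [hk, f2, e2]; ring
      · rw [f3 k hk, e5, w2, h1 k hk]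
  rw [← hfin]
  exact e1.trans f1

end ded

/-- SC1 -/
theorem t : SC1 := by
  intro hscr R _ _ _ n hn i0 hi0 a ha0 ha v c hcv hcong
  obtain ⟨i1, hi1⟩ : ∃ i1 : Fin n, i1 ≠ i0 := by
    refine ⟨⟨1, by omega⟩, fun h => ?_⟩
    have := congrArg Fin.val h
    simp only [hi0] at this
    omega
  have hC : Cong a i0 v := hcong
  have hU : Uni v := ⟨c, hcv⟩
  -- (a)
  obtain ⟨v1, a1, a2⟩ : ∃ v1, Eqv a v v1 ∧
      ∃ i, i ≠ i0 ∧ (v1 (Sum.inl i) ≠ 0 ∨ v1 (Sum.inr i) ≠ 0) := by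
    by_cases h : ∃ i, i ≠ i0 ∧ (v (Sum.inl i) ≠ 0 ∨ v (Sum.inr i) ≠ 0)
    · exact ⟨v, Eqv.refl a v, h⟩
    · push Not at h
      obtain ⟨v1, b1, b2, b3, b4, b5⟩ := eqv_L2 i0 i1 hi1.symm a dvd_rfl v
      refine ⟨v1, b1, i1, hi1, Or.inr ?_⟩
      rw [b3, (h i1 hi1).2, zero_add]
      exact mul_ne_zero ha0 (ne_zero_of_cong ha (cong_dvd0 hC))
  have hC1 := a1.cong hC
  -- (b)
  obtain ⟨v2, b1, b2⟩ := partB hscr hC1 (a1.uni hU) a2
  have hC2 := b1.cong hC1
  -- (c)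
  obtain ⟨v3, c1, c2, c3⟩ := partC hscr ha hi1 ((Finset.univ.erase i0).erase i1) (by simp)
    (Finset.notMem_erase _ _) v2 hC2 b2
  have hC3 := c1.cong hC2
  -- (d)
  obtain ⟨v4, d1, d2, d3, d4⟩ := partD (i1 := i1) hC3 (fun p hp e1 e2 => by
    obtain ⟨f1, f2⟩ := c3 p hp e1 e2
    refine c2 p hp e1 fun i hi => ?_
    by_cases h : i = i1
    · rw [h]; exact ⟨e2, f1⟩
    · exact f2 i (Finset.mem_erase.2 ⟨h, Finset.mem_erase.2 ⟨hi, Finset.mem_univ _⟩⟩))
  have hC4 := d1.cong hC3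
  -- (e)
  have e := partE hC4 (by rw [d3, d2]) d4
  exact (((a1.trans b1).trans c1).trans d1).trans e

end Pool.Agent.Q150.SPC.SC1
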